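import Pool.Agent.VTP.StmtsG

set_option autoImplicit false

namespace Pool.Agent.VTP.H77

open Finset Pool.Agent.ZOL Pool.Agent.VTP

theorem tgg_sub_append (S : Finset ℕ) (u v : Word) : sub S (u ++ v) = sub S u ++ sub S v := by
  unfold sub
  exact List.filter_append _ _

theorem tgg_sub_rev (S : Finset ℕ) (w : Word) :
    sub S (w.reverse.map bar) = (sub S w).reverse.map bar := by
  unfold sub
  rw [List.filter_map, List.filter_reverse]
  rfl

theorem tgg_sub_cons (a : ℕ) (x : Letter) (w : Word) :
    sub {a} (x :: w) = if x.1 = a then x :: sub {a} w else sub {a} w := by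
  unfold sub
  rw [List.filter_cons]
  by_cases h : x.1 = a <;> simp [h]

theorem tgg_seg_none (ov : ℕ → Bool) (a : ℕ) (ls : List ℕ) : ∀ (s : Bool), a ∉ ls →
    sub {a} (seg ov s ls) = [] := by
  induction ls with
  | nil => intro s _; rfl
  | cons b l ih =>
    intro s h
    rw [List.mem_cons, not_or] at h
    rw [seg, tgg_sub_cons, if_neg (Ne.symm h.1)]
    exact ih _ h.2

theorem tgg_seg_one (ov : ℕ → Bool) (a : ℕ) (ls : List ℕ) : ∀ (s : Bool), ls.Nodup → a ∈ ls →
    ∃ x : Letter, sub {a} (seg ov s ls) = [x] := by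
  induction ls with
  | nil => intro s _ h; simp at h
  | cons b l ih =>
    intro s hn h
    rw [List.nodup_cons] at hn
    rw [seg, tgg_sub_cons]
    by_cases hb : b = a
    · rw [if_pos hb, tgg_seg_none ov a l (!s) (by rw [← hb]; exact hn.1)]
      exact ⟨_, rfl⟩
    · rw [if_neg hb]
      refine ih _ hn.2 ?_
      rcases List.mem_cons.mp h with h1 | h1
      · exact absurd h1.symm hb
      · exact h1

theorem tgg_labels (a : ℕ) (w : Word) (ha : a ∈ labels w) (h : sub {a} w = []) : False := by
  unfold labels at ha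
  rw [List.mem_toFinset, List.mem_map] at ha
  obtain ⟨x, hx, hxa⟩ := ha
  have h1 : x ∈ sub {a} w := by
    unfold sub
    rw [List.mem_filter]
    exact ⟨hx, by simp [hxa]⟩
  rw [h] at h1
  simp at h1

theorem tgg : TggStmt := by
  refine ⟨?_, ?_⟩
  · intro ls ov hn h0 h1 a ha
    by_cases hal : a ∈ ls
    · obtain ⟨x, hx⟩ := tgg_seg_one ov a ls true hn hal
      have ha0 : ¬ (0 : ℕ) = a := fun h => h0 (h ▸ hal)
      have ha1 : ¬ (1 : ℕ) = a := fun h => h1 (h ▸ hal)
      refine ⟨x, ?_⟩
      unfold tg
      rw [tgg_sub_append, tgg_sub_append, tgg_sub_append, tgg_sub_rev, hx, tgg_sub_cons,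
        tgg_sub_cons, tgg_sub_cons, tgg_sub_cons, if_neg ha0, if_neg ha1, if_neg ha1, if_neg ha0]
      rfl
    · by_cases ha0 : (0 : ℕ) = a
      · subst ha0
        refine ⟨(0, false, ov 0), ?_⟩
        unfold tg
        rw [tgg_sub_append, tgg_sub_append, tgg_sub_append, tgg_sub_rev,
          tgg_seg_none ov 0 ls true hal]
        rfl
      · by_cases ha1 : (1 : ℕ) = a
        · subst ha1
          refine ⟨(1, true, ov 1), ?_⟩
          unfold tg
          rw [tgg_sub_append, tgg_sub_append, tgg_sub_append, tgg_sub_rev,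
            tgg_seg_none ov 1 ls true hal]
          rfl
        · exfalso
          apply tgg_labels a _ ha
          unfold tg
          rw [tgg_sub_append, tgg_sub_append, tgg_sub_append, tgg_sub_rev,
            tgg_seg_none ov a ls true hal, tgg_sub_cons,
            tgg_sub_cons, tgg_sub_cons, tgg_sub_cons, if_neg ha0, if_neg ha1, if_neg ha1,
            if_neg ha0]
          rfl
  · intro ls ov s hn a ha
    by_cases hal : a ∈ ls
    · obtain ⟨x, hx⟩ := tgg_seg_one ov a ls s hn hal
      refine ⟨x, ?_⟩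
      rw [tgg_sub_append, tgg_sub_rev, hx]
      rfl
    · exfalso
      apply tgg_labels a _ ha
      rw [tgg_sub_append, tgg_sub_rev, tgg_seg_none ov a ls s hal]
      rfl

end Pool.Agent.VTP.H77
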